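import Pool.Agent.H98.SDT.Fin11
import Pool.Agent.H98.SD.Fin3

/-!
# MP_e37c09_lc, SecondDichotomy: the theorem
-/

open Ordinal Cardinal Order Set
open scoped ZFSet

universe u

namespace HD.SD

theorem tre : T_TRE.{u} :=
  Pool.Agent.H98.SD.T.pf_TRE Pool.Agent.H70.SD.pf_DXS Pool.Agent.H52.SD.pf_DXP
    Pool.Agent.H94.SD.pf_DXN Pool.Agent.H70.SD.pf_COM Pool.Agent.H50.SD.pf_ODY
    (Pool.Agent.H94.SD.pf_FEM Pool.Agent.H94.SD.pf_DXN Pool.Agent.H70.SD.pf_CO2)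

theorem loc' : T_LOC.{u} :=
  loc r5 rk tre Pool.Agent.H70.SD.pf_DXS Pool.Agent.H90.SD.pf_FWM Pool.Agent.H52.SD.pf_DXP
    Pool.Agent.H50.SD.pf_ODY

theorem fin3' : T_FIN3.{u} :=
  fin3 (fin main9) loc' suc su3' (Pool.Agent.H54.SD.pf_NMX r5.WIE)

end HD.SD
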