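import Pool.Agent.H98.SDT.Fin9
import Pool.Agent.H98.SD.Suc3
import Pool.Agent.H98.SD.SGX
import Pool.Agent.H98.SD.ULX

open Ordinal Cardinal Order Set
open scoped ZFSet

universe u

namespace HD.SD

theorem ulx : T_ULX.{u} :=
  Pool.Agent.H98.SD.U.pf_ULX Pool.Agent.H70.SD.pf_DXS Pool.Agent.H52.SD.pf_DXP
    Pool.Agent.H94.SD.pf_DXN Pool.Agent.H49.SD.pf_ODX

theorem suc : T_SUC.{u} :=
  suc_iff main9 (Pool.Agent.H98.SD.U.pf_SGX ulx Pool.Agent.H90.SD.pf_FWM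
    Pool.Agent.H52.SD.pf_DXP Pool.Agent.H50.SD.pf_ODY) Pool.Agent.H54.SD.pf_SCY

theorem sug' : T_SUG.{u} :=
  sug r5 rk ulx Pool.Agent.H90.SD.pf_FWM Pool.Agent.H52.SD.pf_DXP Pool.Agent.H50.SD.pf_ODY
    Pool.Agent.H70.SD.pf_CO2

theorem su3' : T_SU3.{u} := su3 rk sug' Pool.Agent.H54.SD.pf_SCY

end HD.SD
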