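import Pool.Agent.H98.SDT.Fin12
import Pool.Agent.H98.SD.Fin4

/-!
# MP_e37c09_lc, SecondDichotomy: the theorem
-/

open Ordinal Cardinal Order Set
open scoped ZFSet

universe u

namespace HD.SD

theorem fin4' : T_FIN4.{u} :=
  fin4 fin3' (lod r5 rk tre Pool.Agent.H70.SD.pf_DXS Pool.Agent.H90.SD.pf_FWM
    Pool.Agent.H52.SD.pf_DXP Pool.Agent.H50.SD.pf_ODY)
    (Pool.Agent.H98.SD.B.pf_BEX Pool.Agent.H70.SD.pf_DXS Pool.Agent.H94.SD.pf_DXN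
      Pool.Agent.H70.SD.pf_COM Pool.Agent.H50.SD.pf_ODY)

end HD.SD
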