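import Pool.Agent.H98.SDT.Fin12
import Pool.Agent.H98.SD.NuC

/-!
# MP_e37c09_lc, SecondDichotomy: the theorem for strong limit cardinals of any cofinality
-/

open Ordinal Cardinal Order Set
open scoped ZFSet

universe u

namespace HD.SD

theorem loc5' : T_LOC5.{u} :=
  loc5 rk tre All.vh Pool.Agent.H49.SD.pf_ODX Pool.Agent.H70.SD.pf_DXS Pool.Agent.H94.SD.pf_DXN
    Pool.Agent.H90.SD.pf_FWM Pool.Agent.H52.SD.pf_DXP Pool.Agent.H50.SD.pf_ODY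

theorem sug5' : T_SUG5.{u} :=
  sug5 ulx All.vh Pool.Agent.H49.SD.pf_ODX Pool.Agent.H70.SD.pf_DXS Pool.Agent.H94.SD.pf_DXN
    Pool.Agent.H90.SD.pf_FWM Pool.Agent.H52.SD.pf_DXP Pool.Agent.H50.SD.pf_ODY

theorem fin5' : T_FIN5.{u} :=
  fin5 fin3' loc5' sug5' Pool.Agent.H54.SD.pf_SCY (Pool.Agent.H54.SD.pf_NMX r5.WIE)

end HD.SD
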