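import Pool.Agent.H98.SDT.Fin14
import Pool.Agent.H98.SD.NuD

/-!
# MP_e37c09_lc, SecondDichotomy: the theorem for all sets `x` and all strong limit cardinals
-/

open Ordinal Cardinal Order Set
open scoped ZFSet

universe u

namespace HD.SD

theorem loc6' : T_LOC6.{u} :=
  loc6 rk tre Pool.Agent.H67.SD.pf_TRM All.vh Pool.Agent.H49.SD.pf_ODX Pool.Agent.H70.SD.pf_DXS
    Pool.Agent.H94.SD.pf_DXN Pool.Agent.H90.SD.pf_FWM Pool.Agent.H52.SD.pf_DXP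
    Pool.Agent.H50.SD.pf_ODY

theorem kon' : T_KON.{u} := fun κ Λ L hL hΛ hκ x hC =>
  kon Pool.Agent.H49.SD.pf_ODX Pool.Agent.H70.SD.pf_DXS Pool.Agent.H94.SD.pf_DXN (κ := κ)
    (Λ := Λ) (L := L) hL hΛ hκ (x := x) hC

theorem scx : T_SCX.{u} :=
  Pool.Agent.H81.SD.pf_SCX Pool.Agent.H70.SD.pf_DXS Pool.Agent.H94.SD.pf_DXN
    Pool.Agent.H49.SD.pf_ODX Pool.Agent.H50.SD.pf_ODY

theorem fin6' : T_FIN6.{u} :=
  fin6 fin5' loc6' kon' Pool.Agent.H54.SD.pf_SCY scx r5.WIE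

end HD.SD
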