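import Pool.Agent.H98.SDT.Fin15
import Pool.Agent.H98.SD.NuE

/-!
# MP_e37c09_lc, SecondDichotomy: the theorem for all sets `x`, with the first alternative
-/

open Ordinal Cardinal Order Set
open scoped ZFSet

universe u

namespace HD.SD

theorem fin7' : T_FIN7.{u} := fin7 fin6'

end HD.SD
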