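import Pool.Agent.H98.SDT.Fin16
import Pool.Agent.H98.SD.NuH

/-!
# MP_e37c09_lc, SecondDichotomy: the theorem for classes of parameters
-/

open Ordinal Cardinal Order Set
open scoped ZFSet

universe u

namespace HD.SD

theorem cdx : T_CDX.{u} :=
  Pool.Agent.H99.SD.pf_CDX Pool.Agent.H88.SD.pf_COD Pool.Agent.H88.SD.pf_CDB
    Pool.Agent.H63.SD2.pf_DXD Pool.Agent.H50.SD.pf_ODY

theorem cla' : T_CLA.{u} :=
  cla rk tre Pool.Agent.H67.SD.pf_TRN Pool.Agent.H49.SD.pf_ODX Pool.Agent.H90.SD.pf_MAX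
    Pool.Agent.H90.SD.pf_EQM

theorem loc8' : T_LOC8.{u} :=
  loc8 cla' Pool.Agent.H67.SD.pf_TRM All.vh Pool.Agent.H49.SD.pf_ODX Pool.Agent.H70.SD.pf_DXS
    Pool.Agent.H94.SD.pf_DXN Pool.Agent.H90.SD.pf_FWM Pool.Agent.H52.SD.pf_DXP
    Pool.Agent.H50.SD.pf_ODY

theorem fin8' : T_FIN8.{u} :=
  fin8 fin7' loc8' kon' cdx Pool.Agent.H63.SD2.pf_DXD Pool.Agent.H50.SD.pf_ODY r5.WIE

end HD.SD
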