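import Pool.Agent.H98.SDT.Fin17
import Pool.Agent.H98.SD.NuI

/-!
# MP_e37c09_lc, SecondDichotomy: the theorem for classes of parameters
-/

open Ordinal Cardinal Order Set
open scoped ZFSet

universe u

namespace HD.SD

theorem fin9' : T_FIN9.{u} :=
  fin9 fin8' Pool.Agent.H70.SD.pf_DXS Pool.Agent.H94.SD.pf_DXN Pool.Agent.H70.SD.pf_COM
    Pool.Agent.H50.SD.pf_ODY

end HD.SD
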