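import Pool.Agent.H98.SDT.Fin18
import Pool.Agent.H98.SD.NuJ
import Pool.Agent.H98.SD.NuQ

/-!
# MP_e37c09_lc, SecondDichotomy: the theorem for classes of parameters and small sets of ordinals
-/

open Ordinal Cardinal Order Set
open scoped ZFSet

universe u

namespace HD.SD

theorem sqs' : T_SQS.{u} :=
  sqs fin7' Pool.Agent.H98.SD.P.pf_EMB cla' kon' Pool.Agent.H70.SD.pf_DXS
    Pool.Agent.H90.SD.pf_FWM Pool.Agent.H52.SD.pf_DXP Pool.Agent.H50.SD.pf_ODY

theorem fin10' : T_FIN10.{u} :=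
  fin10 fin9' sqs' Pool.Agent.H63.SD2.pf_DXD Pool.Agent.H50.SD.pf_ODY

end HD.SD
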