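import Pool.Agent.H98.SD.Asm7
import Pool.Agent.H98.SD.ATT
import Pool.Agent.H98.SD.ATE
import Pool.Agent.H98.SD.TYE
import Pool.Agent.H25.SD.ALM
import Pool.Agent.H29.SD.RFM
import Pool.Agent.H29.SD.CLE
import Pool.Agent.H29.SD.BDE
import Pool.Agent.H30.SD.CNM
import Pool.Agent.H30.SD.CNE
import Pool.Agent.H43.SD.CAS
import Pool.Agent.H50.SD.MEC
import Pool.Agent.H50.SD.ODY
import Pool.Agent.H49.SD.ODX
import Pool.Agent.H52.SD.DXP
import Pool.Agent.H56.SD.CVM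
import Pool.Agent.H57.SD.FNM
import Pool.Agent.H59.SD.CL1
import Pool.Agent.H63.SD2.DXD
import Pool.Agent.H63.SD2.UFM
import Pool.Agent.H67.SD.TRN
import Pool.Agent.H67.SD.TRM
import Pool.Agent.H70.SD.COM
import Pool.Agent.H81.SD.WIE
import Pool.Agent.H87.SD.TYM
import Pool.Agent.H88.SD.COD
import Pool.Agent.H88.SD.CDB
import Pool.Agent.H90.SD.EQM
import Pool.Agent.H90.SD.FWM
import Pool.Agent.H90.SD.MAX
import Pool.Agent.H94.SD.DXN
import Pool.Agent.H94.SD.FEM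
import Pool.Agent.H96.SD.UNN
import Pool.Agent.H97.SD.NIM
import Pool.Agent.H99.SD.CDX

open Ordinal Cardinal Order Set
open scoped ZFSet

universe u

namespace HD.SD

theorem r5 : R5.{u} := by
  have DXS := Pool.Agent.H70.SD.pf_DXS.{u}
  have COM := Pool.Agent.H70.SD.pf_COM.{u}
  have CO2 := Pool.Agent.H70.SD.pf_CO2.{u}
  have ODX := Pool.Agent.H49.SD.pf_ODX.{u}
  have ODY := Pool.Agent.H50.SD.pf_ODY.{u}
  have DXP := Pool.Agent.H52.SD.pf_DXP.{u}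
  have DXN := Pool.Agent.H94.SD.pf_DXN.{u}
  have DXD := Pool.Agent.H63.SD2.pf_DXD.{u}
  have TRN := Pool.Agent.H67.SD.pf_TRN.{u}
  have TRM := Pool.Agent.H67.SD.pf_TRM.{u}
  have COD := Pool.Agent.H88.SD.pf_COD.{u}
  have CDB := Pool.Agent.H88.SD.pf_CDB.{u}
  have CDX := Pool.Agent.H99.SD.pf_CDX.{u} COD CDB DXD ODY
  have CDC := Pool.Agent.H99.SD.pf_CDC.{u} COD CDB DXD ODY
  have FEM := Pool.Agent.H94.SD.pf_FEM.{u} DXN CO2
  have TYM := Pool.Agent.H87.SD.pf_TYM.{u} DXP DXD FEM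
  have TYE := Pool.Agent.H98.SD.E.pf_TYE.{u} DXP FEM
  have CNM := Pool.Agent.H30.SD.pf_CNM.{u} DXS DXP DXN TYM
  have CNE := Pool.Agent.H30.SD.pf_CNE.{u} DXS DXP DXN TYE
  have EQM := Pool.Agent.H90.SD.pf_EQM.{u}
  have FWM := Pool.Agent.H90.SD.pf_FWM.{u}
  have MAX := Pool.Agent.H90.SD.pf_MAX
  exact
    { TRN := TRN
      CDC := CDC
      CAS := Pool.Agent.H43.SD.pf_CAS.{u} Pool.Agent.H43.SD.pf_ULM'.{u} CO2
      CL2 := Pool.Agent.H59.SD.pf_CL2.{u} All.vh ODY DXN DXD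
      TRM := TRM
      EQM := EQM
      ALM := Pool.Agent.H25.SD.pf_ALM MAX CDX TRN CNM EQM
      ATT := Pool.Agent.H98.SD.pf_ATT DXS DXP DXN DXD ODY EQM TYM CNM
      SEM := Pool.Agent.H57.SD.pf_SEM ODX
      PFM := Pool.Agent.H57.SD.pf_PFM ODX COM DXS
      REM := Pool.Agent.H57.SD.pf_REM ODX COM DXS
      MEC := Pool.Agent.H50.SD.pf_MEC
      NIM := Pool.Agent.H97.SD.NIM.pf_NIM
      UNN := Pool.Agent.H96.SD.pf_UNN CDX TRM
      UFM := Pool.Agent.H63.SD2.pf_UFM DXS DXP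
      CVM := Pool.Agent.H56.SD.pf_CVM DXP FWM
      RFM := Pool.Agent.H29.SD.pf_RFM
      BDE := Pool.Agent.H29.SD.E.pf_BDE ODX DXS DXN ODY
      ATE := Pool.Agent.H98.SD.E.pf_ATE DXS DXP DXN ODY EQM TYE CNE
      CLE := Pool.Agent.H29.SD.pf_CLE All.vh ODY DXN
      WIE := Pool.Agent.H81.SD.pf_WIE DXS DXN }

end HD.SD
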