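import Pool.Agent.H98.SDT.Fin5
import Pool.Agent.H98.SD.Asm9
import Pool.Agent.H98.SD.CNK
import Pool.Agent.H98.SD.UFK
import Pool.Agent.H98.SD.TYK
import Pool.Agent.H98.SD.ATK
import Pool.Agent.H25.SD.ALK
import Pool.Agent.H29.SD.RFK
import Pool.Agent.H50.SD.MEK
import Pool.Agent.H54.SD.NMX
import Pool.Agent.H54.SD.SCY
import Pool.Agent.H56.SD.CVK
import Pool.Agent.H57.SD.FNK
import Pool.Agent.H81.SD.SCX
import Pool.Agent.H96.SD.UNK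

open Ordinal Cardinal Order Set
open scoped ZFSet

universe u

namespace HD.SD

theorem rk : RK.{u} := by
  have DXS := Pool.Agent.H70.SD.pf_DXS.{u}
  have COM := Pool.Agent.H70.SD.pf_COM.{u}
  have CO2 := Pool.Agent.H70.SD.pf_CO2.{u}
  have ODX := Pool.Agent.H49.SD.pf_ODX.{u}
  have ODY := Pool.Agent.H50.SD.pf_ODY.{u}
  have DXP := Pool.Agent.H52.SD.pf_DXP.{u}
  have DXN := Pool.Agent.H94.SD.pf_DXN.{u}
  have DXD := Pool.Agent.H63.SD2.pf_DXD.{u}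
  have TRN := Pool.Agent.H67.SD.pf_TRN.{u}
  have TRM := Pool.Agent.H67.SD.pf_TRM.{u}
  have COD := Pool.Agent.H88.SD.pf_COD.{u}
  have CDB := Pool.Agent.H88.SD.pf_CDB.{u}
  have CDX := Pool.Agent.H99.SD.pf_CDX.{u} COD CDB DXD ODY
  have FEM := Pool.Agent.H94.SD.pf_FEM.{u} DXN CO2
  have TYK := Pool.Agent.H98.SD.K.pf_TYK.{u} DXP FEM
  have CNK := Pool.Agent.H98.SD.KC.pf_CNK.{u} DXS DXP DXN TYK
  have EQM := Pool.Agent.H90.SD.pf_EQM.{u}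
  have FWM := Pool.Agent.H90.SD.pf_FWM.{u}
  have MAX := Pool.Agent.H90.SD.pf_MAX
  exact
    { DXD := DXD
      ALK := Pool.Agent.H25.SD.pf_ALK MAX CDX DXD TRN CNK EQM
      ATK := Pool.Agent.H98.SD.K.pf_ATK DXS DXP DXN ODY EQM TYK CNK
      SEK := Pool.Agent.H57.SD.pf_SEK ODX
      PFK := Pool.Agent.H57.SD.pf_PFK ODX COM DXS
      MEK := Pool.Agent.H50.SD.pf_MEK
      UNK := Pool.Agent.H96.SD.pf_UNK CDX TRM
      UFK := Pool.Agent.H98.SD.KU.pf_UFK DXS DXP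
      CVK := Pool.Agent.H56.SD.pf_CVK DXP FWM
      RFK := Pool.Agent.H29.SD.pf_RFK }

theorem main9 : T_MAIN9.{u} :=
  asm9 (asm7 r5 (Pool.Agent.H54.SD.pf_NMX r5.WIE)
    (Pool.Agent.H81.SD.pf_SCX Pool.Agent.H70.SD.pf_DXS Pool.Agent.H94.SD.pf_DXN
      Pool.Agent.H49.SD.pf_ODX Pool.Agent.H50.SD.pf_ODY) Pool.Agent.H54.SD.pf_SCY) (asm8 r5 rk)

end HD.SD
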